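import Pool.Agent.Q179.Ray.QuasiOpen

/-!
# MP_a0fd6e_gt, Q1: open subspaces of ray spaces are quasi-ray spaces

Order trees, rays and the topology of `RaySpace T` are defined in `Pool.Agent.Q179.Ray.Defs`; the
space `NERaySpace T` of nonempty rays and quasi-ray spaces in `Pool.Agent.Q179.Ray.QuasiDefs`.
-/

namespace Pool.Agent.Results.MP_a0fd6e_gt.OpenSubspaces

open Pool.Agent.Q179.Ray

universe u

/-- `X` is a ray space: it is homeomorphic to the space of nonempty rays of an order tree. -/
def IsRaySpace (X : Type u) [TopologicalSpace X] : Prop :=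
  ∃ (T : Type u) (_ : PartialOrder T), IsOrderTree T ∧ Nonempty (X ≃ₜ NERaySpace T)

/-- **Answer to Q1** (positive): every open subspace of a ray space is a quasi-ray space. -/
theorem result (X : Type u) [TopologicalSpace X] (hX : IsRaySpace X) (U : Set X)
    (hU : IsOpen U) : QuasiRay U := by
  obtain ⟨T, po, hT, ⟨e⟩⟩ := hX
  have hO : IsOpen (e.symm ⁻¹' U) := hU.preimage e.symm.continuous
  have hmem : ∀ x : U, e x.1 ∈ e.symm ⁻¹' U := by
    intro x
    change e.symm (e x.1) ∈ U
    rw [e.symm_apply_apply]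
    exact x.2
  refine QuasiRay.of_bij (f := fun x : U => (⟨e x.1, hmem x⟩ : (e.symm ⁻¹' U : Set _)))
    ?_ ⟨?_, ?_⟩ (open_quasi hT hO)
  · exact (e.continuous.comp continuous_subtype_val).subtype_mk _
  · intro a b hab
    have h1 : e a.1 = e b.1 := congrArg (fun w : (e.symm ⁻¹' U : Set _) => w.1) hab
    exact Subtype.ext (e.injective h1)
  · rintro ⟨y, hy⟩
    refine ⟨⟨e.symm y, hy⟩, ?_⟩
    exact Subtype.ext (e.apply_symm_apply y)

end Pool.Agent.Results.MP_a0fd6e_gt.OpenSubspaces
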